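import Mathlib

set_option autoImplicit false

namespace Pool.Agent.H.MP_1d7ced_al

open FreeGroup Finset

variable {α : Type} [DecidableEq α]

def iv (b : α × Bool) : α × Bool := (b.1, !b.2)
def el (b : α × Bool) : FreeGroup α := FreeGroup.mk [b]
def hd (g : FreeGroup α) : Option (α × Bool) := g.toWord.head?

omit [DecidableEq α] in
@[simp] lemma iv_iv (b : α × Bool) : iv (iv b) = b := by simp [iv]

omit [DecidableEq α] in
lemma el_iv (b : α × Bool) : el (iv b) = (el b)⁻¹ := by
  simp [el, iv, inv_mk, invRev]

lemma toWord_el (b : α × Bool) : (el b).toWord = [b] := by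
  simp [el, toWord_mk]

lemma up {b : α × Bool} {g : FreeGroup α} (h : hd g ≠ some (iv b)) :
    (el b * g).toWord = b :: g.toWord := by
  rw [toWord_mul, toWord_el, List.singleton_append, reduce.cons, reduce_toWord]
  unfold hd at h
  cases hw : g.toWord with
  | nil => rfl
  | cons x w =>
    rw [hw] at h
    have : ¬ (b.1 = x.1 ∧ b.2 = !x.2) := by
      rintro ⟨h1, h2⟩
      apply h
      simp [iv, h1, h2]
    simp [this]

lemma down {b : α × Bool} {g : FreeGroup α} (h : hd g = some (iv b)) :
    (el b * g).toWord = g.toWord.tail := by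
  rw [toWord_mul, toWord_el, List.singleton_append, reduce.cons, reduce_toWord]
  unfold hd at h
  cases hw : g.toWord with
  | nil => rw [hw] at h; simp at h
  | cons x w =>
    rw [hw] at h
    have : x = iv b := by simpa using h
    simp [this, iv]

lemma norm_def (g : FreeGroup α) : norm g = g.toWord.length := rfl

lemma forest {Y : Type} [DecidableEq Y] [Fintype α] (ρ : FreeGroup α →* Equiv.Perm Y)
    (hfree : ∀ g y, ρ g y = y → g = 1) (S : Finset Y) :
    ((S ×ˢ (univ : Finset (α × Bool))).filter (fun p => ρ (el p.2) p.1 ∈ S)).card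
      ≤ 2 * S.card := by
  classical
  let r : Setoid Y := ⟨fun y z => ∃ g, ρ g y = z, ⟨fun y => ⟨1, by simp⟩,
    fun ⟨g, h⟩ => ⟨g⁻¹, by rw [← h]; simp⟩,
    fun ⟨g, h⟩ ⟨g', h'⟩ => ⟨g' * g, by rw [_root_.map_mul, Equiv.Perm.mul_apply, h, h']⟩⟩⟩
  have hb : ∀ y : Y, ∃ g, ρ g (Quotient.mk r y).out = y := fun y => Quotient.mk_out (s := r) y
  choose G hG using hb
  have hmul : ∀ g y, G (ρ g y) = g * G y := fun g y => by
    have e : Quotient.mk r (ρ g y) = Quotient.mk r y := (Quotient.sound (s := r) ⟨g, rfl⟩).symm
    have h1 := hG (ρ g y)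
    rw [e] at h1
    have h2 : ρ ((g * G y)⁻¹ * G (ρ g y)) (Quotient.mk r y).out = (Quotient.mk r y).out := by
      rw [_root_.map_mul, Equiv.Perm.mul_apply, h1, _root_.map_inv, Equiv.Perm.inv_eq_iff_eq,
        _root_.map_mul, Equiv.Perm.mul_apply, hG]
    have := hfree _ _ h2
    rw [inv_mul_eq_one] at this
    exact this.symm
  have hc : (S ×ˢ (univ : Finset Bool)).card = 2 * S.card := by simp [mul_comm]
  rw [← hc]
  refine card_le_card_of_injOn
    (fun p => if hd (G p.1) = some (iv p.2) then (p.1, false) else (ρ (el p.2) p.1, true)) ?_ ?_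
  · intro p hp
    simp only [coe_filter, mem_product, mem_univ, and_true, Set.mem_setOf_eq] at hp
    simp only [coe_product, coe_univ, Set.mem_prod, mem_coe, Set.mem_univ, and_true]
    split_ifs
    · exact hp.1
    · exact hp.2
  · rintro ⟨y, b⟩ - ⟨z, c⟩ - h
    simp only at h
    split_ifs at h with h1 h2 h2
    · have e : y = z := congrArg Prod.fst h
      subst e
      rw [h1] at h2
      have : iv (iv b) = iv (iv c) := congrArg iv (Option.some.inj h2)
      simp at this
      rw [this]
    · simp at h
    · simp at h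
    · have e : ρ (el b) y = ρ (el c) z := congrArg Prod.fst h
      have e1 := up h1
      have e2 := up h2
      rw [← hmul] at e1 e2
      rw [e, e2] at e1
      have hbc : c = b := (List.cons.inj e1).1
      subst hbc
      rw [(ρ (el c)).injective e]

variable [Fintype α]

def sph : ℕ → α × Bool → Finset (FreeGroup α)
  | 0, b => {el b}
  | n + 1, b => ((univ.filter (· ≠ iv b)).biUnion (sph n)).image (el b * ·)

lemma mem_sph (n : ℕ) : ∀ (b : α × Bool) (h : FreeGroup α),
    h ∈ sph n b ↔ norm h = n + 1 ∧ hd h = some b := by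
  induction n with
  | zero =>
    intro b h
    simp only [sph, mem_singleton, norm_def, hd]
    constructor
    · rintro rfl; simp [toWord_el]
    · rintro ⟨h1, h2⟩
      apply toWord_injective
      rw [toWord_el]
      obtain ⟨x, hx⟩ := List.length_eq_one_iff.1 h1
      rw [hx] at h2 ⊢
      simpa using h2
  | succ n ih =>
    intro b h
    simp only [sph, mem_image, mem_biUnion, mem_filter, mem_univ, true_and, ih]
    constructor
    · rintro ⟨g, ⟨c, hc, h1, h2⟩, rfl⟩
      have := up (b := b) (g := g) (by rw [h2]; simpa using hc)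
      rw [norm_def] at h1 ⊢
      simp [hd, this, h1]
    · rintro ⟨h1, h2⟩
      have hdn := down (b := iv b) (g := h) (by simpa using h2)
      have hl : norm (el (iv b) * h) = n + 1 := by
        rw [norm_def] at h1 ⊢
        rw [hdn, List.length_tail, h1]; rfl
      have e : el b * (el (iv b) * h) = h := by rw [el_iv]; group
      refine ⟨el (iv b) * h, ?_, e⟩
      cases hw : (el (iv b) * h).toWord with
      | nil => rw [norm_def, hw] at hl; simp at hl
      | cons x w =>
        refine ⟨x, ?_, hl, by simp [hd, hw]⟩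
        rintro rfl
        have := down (b := b) (g := el (iv b) * h) (by simp [hd, hw])
        rw [e] at this
        rw [norm_def] at h1 hl
        rw [this, List.length_tail, hl] at h1
        omega

lemma card_bi (n : ℕ) (s : Finset (α × Bool)) :
    (s.biUnion (sph n)).card = ∑ b ∈ s, (sph n b).card := by
  refine card_biUnion fun b _ c _ hbc => ?_
  rw [Function.onFun, disjoint_left]
  intro h h1 h2
  rw [mem_sph] at h1 h2
  exact hbc (Option.some.inj (h1.2.symm.trans h2.2))

lemma card_sph (n : ℕ) : ∀ b : α × Bool,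
    (sph n b).card = (Fintype.card (α × Bool) - 1) ^ n := by
  induction n with
  | zero => intro b; simp [sph]
  | succ n ih =>
    intro b
    rw [sph, card_image_of_injective _ (mul_right_injective _), card_bi]
    simp only [ih, sum_const, smul_eq_mul, filter_ne', card_erase_of_mem (mem_univ _), card_univ]
    ring

def ball : ℕ → Finset (FreeGroup α)
  | 0 => {1}
  | n + 1 => ball n ∪ univ.biUnion (sph n)

lemma mem_ball (n : ℕ) (h : FreeGroup α) : h ∈ ball n ↔ norm h ≤ n := by
  induction n with
  | zero => simp [ball]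
  | succ n ih =>
    simp only [ball, mem_union, ih, mem_biUnion, mem_univ, true_and, mem_sph]
    constructor
    · rintro (h1 | ⟨b, h1, -⟩) <;> omega
    · intro h1
      rcases Nat.lt_or_ge (norm h) (n + 1) with h2 | h2
      · left; omega
      · right
        cases hw : h.toWord with
        | nil => rw [norm_def, hw] at h2; simp at h2
        | cons x w => exact ⟨x, by omega, by simp [hd, hw]⟩

lemma card_ball_succ (n : ℕ) : (ball (α := α) (n + 1)).card =
    (ball (α := α) n).card + Fintype.card (α × Bool) * (Fintype.card (α × Bool) - 1) ^ n := by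
  rw [ball, card_union_of_disjoint, card_bi]
  · simp [card_sph]
  · rw [disjoint_left]
    intro h h1 h2
    simp only [mem_ball, mem_biUnion, mem_univ, true_and, mem_sph] at h1 h2
    obtain ⟨b, h2, -⟩ := h2
    omega

lemma card_ball (k : ℕ) (hk : Fintype.card (α × Bool) = k + 2) (n : ℕ) :
    k * (ball (α := α) n).card + 2 = (k + 2) * (k + 1) ^ n := by
  induction n with
  | zero => simp [ball]
  | succ n ih =>
    rw [card_ball_succ, hk, mul_add, add_right_comm, ih]
    simp only [show k + 2 - 1 = k + 1 by omega]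
    ring

lemma norm_el_mul (b : α × Bool) (h : FreeGroup α) : norm (el b * h) ≤ norm h + 1 := by
  have := norm_mul_le (el b) h
  rw [norm_def (el b), toWord_el] at this
  simp at this
  omega

theorem surj_sec [Nontrivial α] {A : Type} [Fintype A] [DecidableEq A]
    (ρ : FreeGroup α →* Equiv.Perm (A × FreeGroup α))
    (hfree : ∀ g y, ρ g y = y → g = 1)
    (hρ : ∀ (a : α × Bool) (x : A), ∃ (x' : A) (s : FreeGroup α),
      (s = 1 ∨ ∃ b, s = el b) ∧ ∀ h, ρ (el a) (x, h) = (x', s * h))
    (x₀ : A) (b₀ : α × Bool) : ∃ a, (ρ (el a) (x₀, 1)).2 = el b₀ := by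
  classical
  by_contra hne
  push Not at hne
  obtain ⟨k, hk⟩ : ∃ k, Fintype.card (α × Bool) = k + 2 ∧ 2 ≤ k := by
    have : 1 < Fintype.card α := Fintype.one_lt_card
    exact ⟨Fintype.card (α × Bool) - 2, by simp; omega, by simp; omega⟩
  set d := Fintype.card A with hd'
  let n := d
  let I : Finset (A × FreeGroup α) := {x₀} ×ˢ sph n (iv b₀)
  let S : Finset (A × FreeGroup α) := (univ ×ˢ ball (n + 1)) \ I
  have hS : ∀ y : A × FreeGroup α, y ∈ S ↔
      norm y.2 ≤ n + 1 ∧ ¬ (y.1 = x₀ ∧ norm y.2 = n + 1 ∧ hd y.2 = some (iv b₀)) := by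
    intro y
    simp only [S, I, mem_sdiff, mem_ball, mem_sph, mem_product, mem_univ, true_and, mem_singleton]
  have key : ∀ (a : α × Bool) (x : A), ∃ c : α × Bool, ∀ h ∈ ball n ∪ sph n c,
      (x, h) ∈ S ∧ ρ (el a) (x, h) ∈ S := by
    intro a x
    obtain ⟨x', s, hs, hsh⟩ := hρ a x
    rcases hs with rfl | ⟨b, rfl⟩
    · refine ⟨b₀, fun h hh => ?_⟩
      rw [hsh, one_mul, hS, hS]
      have hbb : b₀ ≠ iv b₀ := fun e => by
        have := congrArg Prod.snd e
        simp [iv] at this
      simp only [mem_union, mem_ball, mem_sph] at hh ⊢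
      rcases hh with hh | ⟨h1, h2⟩
      · omega
      · simp [h1, h2, hbb]
    · refine ⟨iv b, fun h hh => ?_⟩
      rw [hsh, hS, hS]
      simp only [mem_union, mem_ball, mem_sph] at hh ⊢
      rcases hh with hh | ⟨h1, h2⟩
      · have h3 := norm_el_mul b h
        refine ⟨by omega, by omega, ?_⟩
        rintro ⟨rfl, h4, h5⟩
        have h6 : hd h ≠ some (iv b) := fun e => by
          have := down e
          rw [norm_def, this, List.length_tail, ← norm_def] at h4
          omega
        have h7 := up h6
        have hb : b = iv b₀ := by simpa [hd, h7] using h5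
        apply hne (iv a)
        have := hsh (el b)⁻¹
        rw [mul_inv_cancel] at this
        rw [← this, el_iv, _root_.map_inv]
        simp [hb, el_iv]
      · have h4 : norm (el b * h) = n := by
          rw [norm_def, down h2, List.length_tail, ← norm_def, h1]; rfl
        refine ⟨⟨by omega, ?_⟩, by omega, by omega⟩
        rintro ⟨rfl, -, h5⟩
        have : iv (iv b) = iv (iv b₀) := congrArg iv (Option.some.inj (h2.symm.trans h5))
        simp at this
        apply hne a
        rw [hsh, mul_one, this]
  choose c hc using key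
  have hM : ∀ b : α × Bool, (sph n b).card = (k + 1) ^ n := fun b => by
    rw [card_sph, hk.1]; rfl
  have hT : ∀ b : α × Bool, (ball n ∪ sph n b).card = (ball (α := α) n).card + (k + 1) ^ n := by
    intro b
    rw [card_union_of_disjoint, hM]
    rw [disjoint_left]
    intro h h1 h2
    rw [mem_ball] at h1
    rw [mem_sph] at h2
    omega
  have hlow : ((univ : Finset ((α × Bool) × A)).sigma (fun p => ball n ∪ sph n (c p.1 p.2))).card
      ≤ ((S ×ˢ (univ : Finset (α × Bool))).filter (fun p => ρ (el p.2) p.1 ∈ S)).card := by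
    refine card_le_card_of_injOn (fun p => ((p.1.2, p.2), p.1.1)) ?_ ?_
    · rintro ⟨⟨a, x⟩, h⟩ hp
      simp only [coe_sigma, coe_univ, Set.mem_sigma_iff, Set.mem_univ, true_and, mem_coe] at hp
      simpa using hc a x h hp
    · rintro ⟨⟨a, x⟩, h⟩ - ⟨⟨a', x'⟩, h'⟩ - e
      simp only [Prod.mk.injEq] at e
      obtain ⟨⟨rfl, rfl⟩, rfl⟩ := e
      rfl
  have hup := forest ρ hfree S
  have hsub : I ⊆ univ ×ˢ ball (n + 1) := by
    intro y hy
    simp only [I, mem_product, mem_sph, mem_ball, mem_univ, true_and] at hy ⊢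
    omega
  have hSc : S.card + (k + 1) ^ n = d * (ball (α := α) (n + 1)).card := by
    have := card_sdiff_add_card_eq_card hsub
    rw [card_product, card_product, card_singleton, one_mul, hM, card_univ] at this
    exact this
  rw [card_sigma] at hlow
  simp only [hT, sum_const, card_univ, smul_eq_mul, Fintype.card_prod (α × Bool) A, hk.1] at hlow
  have h1 := card_ball k hk.1 n
  have h2 := card_ball_succ (α := α) n
  rw [hk.1] at h2
  simp only [show k + 2 - 1 = k + 1 by omega] at h2
  have h3 : n < (k + 1) ^ n := Nat.lt_pow_self (by omega)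
  rw [← hd'] at hlow
  generalize (k + 1) ^ n = M at *
  generalize (ball (α := α) n).card = B at *
  rw [h2] at hSc
  have h4 := hlow.trans hup
  have h5 : d * (k * B + 2) = d * ((k + 2) * M) := by rw [h1]
  have h6 : n = d := rfl
  nlinarith

end Pool.Agent.H.MP_1d7ced_al
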