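import Mathlib

set_option autoImplicit false

namespace Pool.Agent.H.MP_1d7ced_al

open FreeGroup

lemma central_sub {β : Type*} (z : FreeGroup β) (hz : z ≠ 1) (hc : ∀ g, g * z = z * g) :
    Subsingleton β := by
  classical
  by_contra hβ
  rw [not_subsingleton_iff_nontrivial] at hβ
  have hw : z.toWord ≠ [] := fun h => hz (toWord_eq_nil_iff.1 h)
  obtain ⟨x, w, hxw⟩ := List.exists_cons_of_ne_nil hw
  obtain ⟨g, hg⟩ := exists_ne x.1
  have h1 : (of g * z).toWord = (g, true) :: z.toWord := by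
    rw [toWord_mul, toWord_of, List.singleton_append, reduce.cons, reduce_toWord, hxw]
    simp [hg]
  have h2 := toWord_mul_sublist z (of g)
  rw [← hc, h1, toWord_of] at h2
  have h3 := h2.eq_of_length (by simp)
  rw [hxw] at h3
  simp only [List.cons_append, List.cons.injEq] at h3
  exact hg (congrArg Prod.fst h3.1)

lemma central_cyclic (H : Type*) [Group H] [IsFreeGroup H] (z : H) (hz : z ≠ 1)
    (hc : ∀ g, g * z = z * g) : IsCyclic H := by
  let e := IsFreeGroup.toFreeGroup H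
  have hs : Subsingleton (IsFreeGroup.Generators H) :=
    central_sub (e z) (by simpa using hz) (fun g => by
      obtain ⟨g, rfl⟩ := e.surjective g
      rw [← _root_.map_mul, hc, _root_.map_mul])
  have : IsCyclic (FreeGroup (IsFreeGroup.Generators H)) := by
    rcases isEmpty_or_nonempty (IsFreeGroup.Generators H) with h | h
    · infer_instance
    · let _ : Unique (IsFreeGroup.Generators H) := uniqueOfSubsingleton h.some
      infer_instance
  exact isCyclic_of_surjective e.symm e.symm.surjective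

variable {α : Type*}

lemma cent_gen (a : FreeGroup α) (ha : a ≠ 1) :
    ∃ t : FreeGroup α, Commute t a ∧ ∀ g, Commute g a → ∃ k : ℤ, g = t ^ k := by
  let H := Subgroup.centralizer ({a} : Set (FreeGroup α))
  have hmem : ∀ g, g ∈ H ↔ Commute g a := fun g => by
    simp [H, Subgroup.mem_centralizer_iff, commute_iff_eq, eq_comm]
  have : IsCyclic H := central_cyclic H ⟨a, (hmem a).2 (Commute.refl a)⟩
    (fun h => ha (congrArg Subtype.val h)) (fun g => Subtype.ext ((hmem g).1 g.2))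
  obtain ⟨t, ht⟩ := IsCyclic.exists_generator (α := H)
  refine ⟨t, (hmem _).1 t.2, fun g hg => ?_⟩
  obtain ⟨k, hk⟩ := ht ⟨g, (hmem g).2 hg⟩
  exact ⟨k, (congrArg Subtype.val hk).symm⟩

lemma ct {a b c : FreeGroup α} (ha : a ≠ 1) (hb : Commute b a) (hc : Commute c a) :
    Commute b c := by
  obtain ⟨t, -, ht⟩ := cent_gen a ha
  obtain ⟨i, rfl⟩ := ht b hb
  obtain ⟨j, rfl⟩ := ht c hc
  exact Commute.zpow_zpow_self t i j

lemma root_comm {g t : FreeGroup α} {m : ℕ} (hm : m ≠ 0) (h : Commute (g ^ m) t) :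
    Commute g t := by
  have : (t⁻¹ * g * t) ^ m = g ^ m := by
    have e : (t⁻¹ * g * t) ^ m = t⁻¹ * g ^ m * t := by
      simpa using conj_pow (a := t⁻¹) (b := g) (i := m)
    rw [e, mul_assoc, h.eq]; group
  have h2 : t⁻¹ * g * t = g := pow_left_injective hm this
  show g * t = t * g
  conv_rhs => rw [← h2]
  group

lemma csa {a n : FreeGroup α} (ha : a ≠ 1) (h1 : Commute (n * a * n⁻¹) a) : Commute n a := by
  obtain ⟨t, hta, ht⟩ := cent_gen a ha
  have ha' : n * a * n⁻¹ ≠ 1 := by simpa using ha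
  have c1 : Commute (n * t * n⁻¹) a := by
    refine ct ha' ?_ h1.symm
    show _ = _
    have := hta.eq
    calc n * t * n⁻¹ * (n * a * n⁻¹) = n * (t * a) * n⁻¹ := by group
      _ = _ := by rw [this]; group
  have c2 : Commute (n⁻¹ * t * n) a := by
    have : Commute t (n * a * n⁻¹) := ct ha hta h1
    show _ = _
    have := this.eq
    calc n⁻¹ * t * n * a = n⁻¹ * (t * (n * a * n⁻¹)) * n := by group
      _ = _ := by rw [this]; group
  obtain ⟨i, hi⟩ := ht _ c1
  obtain ⟨j, hj⟩ := ht _ c2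
  obtain ⟨k, hk⟩ := ht a (Commute.refl a)
  have ht1 : t ≠ 1 := by rintro rfl; simp at hk; exact ha hk
  have hij : t ^ (i * j) = t ^ (1 : ℤ) := by
    rw [zpow_mul, ← hi, conj_zpow, ← hj]; group
  have hinj := injective_zpow_iff_not_isOfFinOrder.2 (not_isOfFinOrder_of_isMulTorsionFree ht1)
  have h3 : i * j = 1 := hinj hij
  have h4 : Commute (n ^ 2) t := by
    show _ = _
    have : n * (n * t * n⁻¹) * n⁻¹ = t := by
      rcases Int.eq_one_or_neg_one_of_mul_eq_one h3 with rfl | rfl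
      · rw [hi, zpow_one, hi, zpow_one]
      · rw [hi, ← conj_zpow, hi]; simp
    conv_rhs => rw [← this]
    rw [pow_two]; group
  rw [hk]
  exact (root_comm two_ne_zero h4).zpow_right k

def Good (N M : Subgroup (FreeGroup α)) : Prop :=
  M ≠ ⊥ ∧ M ≤ N ∧ ∀ n ∈ N, ∀ a ∈ M, n * a * n⁻¹ ∈ M

lemma Good.inf [Nontrivial α] {N M₁ M₂ : Subgroup (FreeGroup α)} {m : ℕ} (hm : m ≠ 0)
    (hN : ∀ g, g ^ m ∈ N) (h₁ : Good N M₁) (h₂ : Good N M₂) : Good N (M₁ ⊓ M₂) := by
  classical
  refine ⟨fun hbot => ?_, inf_le_left.trans h₁.2.1,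
    fun n hn a ha => ⟨h₁.2.2 n hn a ha.1, h₂.2.2 n hn a ha.2⟩⟩
  obtain ⟨⟨a, ha⟩, ha1⟩ := (Subgroup.ne_bot_iff_exists_ne_one).1 h₁.1
  obtain ⟨⟨b, hb⟩, hb1⟩ := (Subgroup.ne_bot_iff_exists_ne_one).1 h₂.1
  have ha1 : a ≠ 1 := fun h => ha1 (Subtype.ext h)
  have hb1 : b ≠ 1 := fun h => hb1 (Subtype.ext h)
  have hc : ∀ c ∈ M₁, Commute c b := fun c hc => by
    have : c * b * c⁻¹ * b⁻¹ ∈ M₁ ⊓ M₂ := by
      refine ⟨?_, M₂.mul_mem (h₂.2.2 c (h₁.2.1 hc) b hb) (M₂.inv_mem hb)⟩
      have := M₁.mul_mem hc (h₁.2.2 b (h₂.2.1 hb) _ (M₁.inv_mem hc))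
      simpa [mul_assoc] using this
    rw [hbot, Subgroup.mem_bot] at this
    show _ = _
    calc c * b = (c * b * c⁻¹ * b⁻¹) * (b * c) := by group
      _ = _ := by rw [this, one_mul]
  have hn : ∀ n ∈ N, Commute n a := fun n hn =>
    csa ha1 (ct hb1 (hc _ (h₁.2.2 n hn a ha)) (hc a ha))
  obtain ⟨p, q, hpq⟩ := exists_pair_ne α
  have h5 : Commute (of p : FreeGroup α) (of q) :=
    ct ha1 (root_comm hm (hn _ (hN _))) (root_comm hm (hn _ (hN _)))
  have := congrArg toWord h5.eq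
  simp [toWord_mul, hpq, hpq.symm] at this

lemma Good.iInf [Nontrivial α] {N : Subgroup (FreeGroup α)} {m : ℕ} (hm : m ≠ 0)
    (hN : ∀ g, g ^ m ∈ N) {ι : Type*} (M : ι → Subgroup (FreeGroup α)) (hM : ∀ i, Good N (M i))
    (s : Finset ι) : ∃ K, Good N K ∧ ∀ i ∈ s, K ≤ M i := by
  classical
  induction s using Finset.induction_on with
  | empty =>
    refine ⟨N, ⟨fun h => ?_, le_rfl, fun n hn a ha => N.mul_mem (N.mul_mem hn ha) (N.inv_mem hn)⟩,
      by simp⟩
    obtain ⟨p⟩ : Nonempty α := inferInstance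
    have := hN (of p)
    rw [h, Subgroup.mem_bot] at this
    have := congrArg FreeGroup.norm this
    simp [norm_of_pow, hm] at this
  | insert i s _ ih =>
    obtain ⟨K, hK, hle⟩ := ih
    refine ⟨M i ⊓ K, (hM i).inf hm hN hK, fun j hj => ?_⟩
    rcases Finset.mem_insert.1 hj with rfl | hj
    · exact inf_le_left
    · exact inf_le_right.trans (hle j hj)

end Pool.Agent.H.MP_1d7ced_al
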